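import Pool.Agent.FU2.Stmts
import Pool.Agent.Helper88_FUR.Fls
import Pool.Agent.Helper62_FUR.SEM

/-!
# Squad FU2, row UPP: the bound is sharp
-/

set_option autoImplicit false

namespace Pool.Agent.FU2.H70

open Pool.Agent.FUR Pool.Agent.FU2

/-- conjunction of the statements `P j = g j`, `j < m` -/
def cj (P : ℕ → PF) (g : ℕ → Bool) : ℕ → PF
  | 0 => PF.cst true
  | j + 1 => PF.and (cj P g j) (if g j then P j else PF.neg (P j))

theorem cj_eval (P : ℕ → PF) (g : ℕ → Bool) (σ : ℕ → Bool) : ∀ m : ℕ,
    (cj P g m).eval σ = true ↔ ∀ j < m, (P j).eval σ = g j := by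
  intro m
  induction m with
  | zero => simp [cj, PF.eval]
  | succ m ih =>
    have h1 : (cj P g (m + 1)).eval σ =
        ((cj P g m).eval σ && (if g m then P m else PF.neg (P m)).eval σ) := rfl
    rw [h1, Bool.and_eq_true, ih]
    have h2 : (if g m then P m else PF.neg (P m)).eval σ = true ↔ (P m).eval σ = g m := by
      cases hg : g m
      · simp [PF.eval]
      · simp
    rw [h2]
    constructor
    · rintro ⟨h3, h4⟩ j hj
      rcases Nat.lt_succ_iff_lt_or_eq.mp hj with h5 | h5
      · exact h3 j h5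
      · rw [h5]; exact h4
    · intro h3
      exact ⟨fun j hj => h3 j (by omega), h3 m (by omega)⟩

theorem cj_size (P : ℕ → PF) (g : ℕ → Bool) (S : ℕ) : ∀ m : ℕ, (∀ j < m, (P j).size ≤ S) →
    (cj P g m).size ≤ 1 + m * (S + 2) := by
  intro m
  induction m with
  | zero => intro _; simp [cj, PF.size]
  | succ m ih =>
    intro h
    have h1 : (cj P g (m + 1)).size =
        (cj P g m).size + (if g m then P m else PF.neg (P m)).size + 1 := rfl
    have h2 : (if g m then P m else PF.neg (P m)).size ≤ S + 1 := by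
      have := h m (by omega)
      cases hg : g m
      · simp only [Bool.false_eq_true, if_false, PF.size]; omega
      · simp only [if_true]; omega
    have h3 := ih fun j hj => h j (by omega)
    rw [h1]
    have h4 : (m + 1) * (S + 2) = m * (S + 2) + (S + 2) := by ring
    omega

theorem cj_vars (P : ℕ → PF) (g : ℕ → Bool) (v : ℕ) : ∀ m : ℕ, v ∈ (cj P g m).vars →
    ∃ j < m, v ∈ (P j).vars := by
  intro m
  induction m with
  | zero => intro h; simp [cj, PF.vars] at h
  | succ m ih =>
    intro h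
    have h1 : (cj P g (m + 1)).vars =
        (cj P g m).vars ∪ (if g m then P m else PF.neg (P m)).vars := rfl
    rw [h1, Finset.mem_union] at h
    rcases h with h | h
    · obtain ⟨j, hj, hv⟩ := ih h
      exact ⟨j, by omega, hv⟩
    · refine ⟨m, by omega, ?_⟩
      cases hg : g m
      · rw [hg] at h
        simpa [PF.vars] using h
      · rw [hg] at h
        simpa using h

/-- the lines before the reduction -/
def ln (P : ℕ → PF) (m n : ℕ) (g : ℕ → Bool) : PF :=
  PF.or (PF.neg (cj P g m)) (if px g m then PF.neg (PF.var n) else PF.var n)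

theorem ln_size (P : ℕ → PF) (m n : ℕ) (g : ℕ → Bool) (S : ℕ) (h : ∀ j < m, (P j).size ≤ S) :
    (ln P m n g).size ≤ 5 + m * (S + 2) := by
  have h1 : (ln P m n g).size = (cj P g m).size + 1 +
      (if px g m then PF.neg (PF.var n) else PF.var n).size + 1 := rfl
  have h2 : (if px g m then PF.neg (PF.var n) else PF.var n).size ≤ 2 := by
    cases px g m
    · simp only [Bool.false_eq_true, if_false, PF.size]; omega
    · simp only [if_true, PF.size]; omega
  have h3 := cj_size P g S m h
  omega

theorem ln_mem (P : ℕ → PF) (m n : ℕ) (g : ℕ → Bool) : n ∈ (ln P m n g).vars := by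
  have h1 : (ln P m n g).vars = (cj P g m).vars ∪
      (if px g m then PF.neg (PF.var n) else PF.var n).vars := rfl
  rw [h1, Finset.mem_union]
  right
  cases px g m
  · simp [PF.vars]
  · simp [PF.vars]

theorem ln_vars (P : ℕ → PF) (m n : ℕ) (g : ℕ → Bool) (hP : ∀ j < m, ∀ v ∈ (P j).vars, v < n) :
    ∀ v ∈ (ln P m n g).vars, v ≤ n := by
  intro v hv
  have h1 : (ln P m n g).vars = (cj P g m).vars ∪
      (if px g m then PF.neg (PF.var n) else PF.var n).vars := rfl
  rw [h1, Finset.mem_union] at hv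
  rcases hv with hv | hv
  · obtain ⟨j, hj, h2⟩ := cj_vars P g v m hv
    exact (hP j hj v h2).le
  · have h3 : v = n := by
      cases h4 : px g m
      · rw [h4] at hv
        simpa [PF.vars] using hv
      · rw [h4] at hv
        simpa [PF.vars] using hv
    omega

/-- the lines after the reduction -/
def rl (P : ℕ → PF) (m n : ℕ) (g : ℕ → Bool) : PF :=
  (ln P m n g).sub1 n (PF.cst (px g m))

theorem rl_eval (P : ℕ → PF) (m n : ℕ) (g σ : ℕ → Bool)
    (hP : ∀ j < m, ∀ v ∈ (P j).vars, v < n) :
    (rl P m n g).eval σ = !((cj P g m).eval σ) := by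
  rw [rl, Pool.Agent.FUR.H62.sem_sub1]
  have h1 : ∀ σ' : ℕ → Bool, (ln P m n g).eval σ' =
      (!((cj P g m).eval σ') || (if px g m then PF.neg (PF.var n) else PF.var n).eval σ') :=
    fun _ => rfl
  rw [h1]
  have h2 : (cj P g m).eval (Function.update σ n ((PF.cst (px g m)).eval σ)) =
      (cj P g m).eval σ := by
    apply Pool.Agent.FUR.H62.sem_congr
    intro v hv
    obtain ⟨j, hj, hv⟩ := cj_vars P g v m hv
    have := hP j hj v hv
    rw [Function.update_of_ne (by omega)]
  rw [h2]
  cases h3 : px g m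
  · simp [PF.eval]
  · simp [PF.eval]

theorem sub_var (φ : PF) : φ.sub PF.var = φ := by
  induction φ with
  | cst b => rfl
  | var v => rfl
  | neg φ ih => simp only [PF.sub, ih]
  | and φ ψ ih1 ih2 => simp only [PF.sub, ih1, ih2]
  | or φ ψ ih1 ih2 => simp only [PF.sub, ih1, ih2]

theorem px_tel (g σ : ℕ → Bool) (a : ℕ → ℕ) (ha : a 0 = 0) : ∀ k : ℕ,
    (∀ j < k, g j = xor (px σ (a (j + 1))) (px σ (a j))) → px g k = px σ (a k) := by
  intro k
  induction k with
  | zero => intro _; rw [ha]; rfl
  | succ k ih =>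
    intro h
    have h1 : px g (k + 1) = xor (px g k) (g k) := rfl
    rw [h1, ih fun j hj => h j (by omega), h k (by omega)]
    cases px σ (a k) <;> cases px σ (a (k + 1)) <;> rfl

theorem ref_clauses (Φ : QBF) (R : Set Rule) (s : ℕ) : ∀ l : List (List (ℕ × Bool)),
    (∀ c ∈ l, c ∈ Φ.mat) → ∃ Λ, Ref Φ R s Λ 0 ∧ ∀ c ∈ l, clF c ∈ Λ := by
  intro l
  induction l with
  | nil => intro _; exact ⟨[], Ref.nil, by simp⟩
  | cons c l ih =>
    intro h
    obtain ⟨Λ, h1, h2⟩ := ih fun c' hc' => h c' (List.mem_cons_of_mem _ hc')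
    refine ⟨clF c :: Λ, Ref.clause h1 c (h c List.mem_cons_self), ?_⟩
    intro c' hc'
    rcases List.mem_cons.mp hc' with h3 | h3
    · rw [h3]; exact List.mem_cons_self
    · exact List.mem_cons_of_mem _ (h2 c' h3)

theorem univ_n (n : ℕ) : (QPar n).Univ n := by
  show (List.replicate n false ++ true :: List.replicate n false)[n]? = some true
  rw [List.getElem?_append_right (by simp)]
  simp

theorem div_add_le (x y m : ℕ) (hm : 0 < m) : (x + y) / m ≤ x / m + y / m + 1 := by
  have h1 : x < m * (x / m + 1) := Nat.lt_mul_div_succ x hm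
  have h2 : y < m * (y / m + 1) := Nat.lt_mul_div_succ y hm
  have h3 : (x + y) / m < x / m + y / m + 2 := by
    rw [Nat.div_lt_iff_lt_mul hm]
    have h4 : (x / m + y / m + 2) * m = m * (x / m + 1) + m * (y / m + 1) := by ring
    rw [h4]
    omega
  omega

/-- extension of a function on `Fin m` -/
def ext {m : ℕ} (g : Fin m → Bool) : ℕ → Bool := fun j => if h : j < m then g ⟨j, h⟩ else false

/-- row UPP -/
theorem upp (hPBK : PBKStmt) : UPPStmt := by
  refine ⟨29, fun n m hm hmn => ?_⟩
  obtain ⟨a, ha⟩ : ∃ a : ℕ → ℕ, a = fun j => j * n / m := ⟨_, rfl⟩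
  have ha0 : a 0 = 0 := by rw [ha]; simp
  have ham : a m = n := by
    rw [ha]
    exact Nat.mul_div_cancel_left n (by omega)
  have hstep : ∀ j, a j + 1 ≤ a (j + 1) := by
    intro j
    rw [ha]
    show j * n / m + 1 ≤ (j + 1) * n / m
    rw [← Nat.add_div_right _ (by omega : 0 < m)]
    apply Nat.div_le_div_right
    nlinarith
  have hmono : Monotone a := monotone_nat_of_le_succ fun j => by have := hstep j; omega
  have hup : ∀ j, a (j + 1) ≤ a j + (n / m + 1) := by
    intro j
    rw [ha]
    show (j + 1) * n / m ≤ j * n / m + (n / m + 1)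
    have h1 : (j + 1) * n = j * n + n := by ring
    rw [h1]
    have := div_add_le (j * n) n m (by omega)
    omega
  choose P hP using fun j => hPBK (a j) (a (j + 1) - a j) (by have := hstep j; omega)
  have hPe : ∀ j (σ : ℕ → Bool), (P j).eval σ = xor (px σ (a (j + 1))) (px σ (a j)) := by
    intro j σ
    have h1 := (hP j).2.2 σ
    have h2 : a j + (a (j + 1) - a j) = a (j + 1) := by have := hstep j; omega
    rw [h2] at h1
    exact h1
  have hPv : ∀ j < m, ∀ v ∈ (P j).vars, v < n := by
    intro j hj v hv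
    have h1 := ((hP j).2.1 v hv).2
    have h2 : a (j + 1) ≤ a m := hmono (by omega)
    have := hstep j
    omega
  obtain ⟨b, hb⟩ : ∃ b, b = n / m + 1 := ⟨_, rfl⟩
  have hPs : ∀ j < m, (P j).size + 5 ≤ 6 * b ^ 2 := by
    intro j _
    refine (hP j).1.trans (Nat.mul_le_mul_left _ (Nat.pow_le_pow_left ?_ 2))
    have := hup j
    omega
  obtain ⟨s, hs⟩ : ∃ s, s = 5 + 6 * (m * b ^ 2) := ⟨_, rfl⟩
  have hsz : ∀ g : ℕ → Bool, (ln P m n g).size ≤ s := by
    intro g
    have h1 := ln_size P m n g (6 * b ^ 2 - 5) fun j hj => by have := hPs j hj; omega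
    have h2 : 6 * b ^ 2 - 5 + 2 ≤ 6 * b ^ 2 := by
      have h0 := hPs 0 (by omega)
      omega
    have h3 := Nat.mul_le_mul_left m h2
    rw [hs]
    have h4 : m * (6 * b ^ 2) = 6 * (m * b ^ 2) := by ring
    omega
  -- soundness of the first rule
  have hr1 : ∀ g : ℕ → Bool, (⟨(QPar n).mat.map clF, ln P m n g⟩ : Rule).Sound := by
    intro g σ hσ
    have h1 := Pool.Agent.FUR.H88.matrix_facts n (by omega) σ fun c hc =>
      hσ (clF c) (List.mem_map.mpr ⟨c, hc, rfl⟩)
    have h2 : (ln P m n g).eval σ =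
      (!((cj P g m).eval σ) || (if px g m then PF.neg (PF.var n) else PF.var n).eval σ) := rfl
    show (ln P m n g).eval σ = true
    rw [h2]
    cases h3 : (cj P g m).eval σ
    · rfl
    · have h4 := (cj_eval P g σ m).mp h3
      have h5 : px g m = px σ n := by
        rw [← ham]
        apply px_tel g σ a ha0 m
        intro j hj
        rw [← h4 j hj, hPe]
      rw [h5]
      cases h6 : px σ n
      · rw [h6] at h1
        simp only [ne_eq, Bool.not_eq_false] at h1
        simp [PF.eval, h1]
      · rw [h6] at h1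
        simp only [ne_eq, Bool.not_eq_true] at h1
        simp [PF.eval, h1]
  -- the reductions
  have hmain : ∀ L : List (Fin m → Bool), ∃ Λ, Ref (QPar n) {r | r.Sound} s Λ L.length ∧
      (∀ c ∈ (QPar n).mat, clF c ∈ Λ) ∧ ∀ g ∈ L, rl P m n (ext g) ∈ Λ := by
    intro L
    induction L with
    | nil =>
      obtain ⟨Λ, h1, h2⟩ := ref_clauses (QPar n) {r | r.Sound} s (QPar n).mat fun _ h => h
      exact ⟨Λ, h1, h2, by simp⟩
    | cons g L ih =>
      obtain ⟨Λ, h1, h2, h3⟩ := ih
      have h4 : Ref (QPar n) {r | r.Sound} s (ln P m n (ext g) :: Λ) L.length := by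
        have h5 := Ref.rule h1 ⟨(QPar n).mat.map clF, ln P m n (ext g)⟩ (hr1 (ext g)) PF.var
          (by
            intro p hp
            obtain ⟨c, hc, rfl⟩ := List.mem_map.mp hp
            rw [sub_var]
            exact h2 c hc)
        rw [sub_var] at h5
        exact h5
      have h6 := Ref.red h4 (ln P m n (ext g)) List.mem_cons_self n (univ_n n)
        (ln_mem P m n (ext g)) (ln_vars P m n (ext g) hPv) (PF.cst (px (ext g) m))
        (by simp [PF.vars]) (hsz (ext g)) (by rw [hs]; simp only [PF.size]; omega)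
      refine ⟨_, h6, ?_, ?_⟩
      · intro c hc
        exact List.mem_cons_of_mem _ (List.mem_cons_of_mem _ (h2 c hc))
      · intro g' hg'
        rcases List.mem_cons.mp hg' with h7 | h7
        · rw [h7]
          exact List.mem_cons_self
        · exact List.mem_cons_of_mem _ (List.mem_cons_of_mem _ (h3 g' h7))
  obtain ⟨Λ, h1, -, h3⟩ := hmain (Finset.univ : Finset (Fin m → Bool)).toList
  have hlen : (Finset.univ : Finset (Fin m → Bool)).toList.length = 2 ^ m := by
    rw [Finset.length_toList, Finset.card_univ, Fintype.card_fun, Fintype.card_bool,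
      Fintype.card_fin]
  rw [hlen] at h1
  have hr2 : (⟨(Finset.univ : Finset (Fin m → Bool)).toList.map fun g => rl P m n (ext g),
      PF.cst false⟩ : Rule).Sound := by
    intro σ hσ
    exfalso
    obtain ⟨g, hg⟩ : ∃ g : Fin m → Bool, g = fun j : Fin m => (P (j : ℕ)).eval σ := ⟨_, rfl⟩
    have h4 := hσ (rl P m n (ext g)) (List.mem_map.mpr ⟨g, by simp, rfl⟩)
    rw [rl_eval P m n (ext g) σ hPv] at h4
    have h5 : (cj P (ext g) m).eval σ = true := by
      rw [cj_eval]
      intro j hj
      rw [hg]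
      simp only [ext, hj, dif_pos]
    rw [h5] at h4
    exact absurd h4 (by decide)
  have h7 := Ref.rule h1 _ hr2 PF.var
    (by
      intro p hp
      obtain ⟨g, hg, rfl⟩ := List.mem_map.mp hp
      rw [sub_var]
      exact h3 g hg)
  refine ⟨s, _, h7, ?_, ?_⟩
  · rw [sub_var]
    exact List.mem_cons_self
  · have h8 : m * b ≤ 2 * n := by
      rw [hb]
      have := Nat.mul_div_le n m
      have h9 : m * (n / m + 1) = m * (n / m) + m := by ring
      omega
    have h9 : (m * b) ^ 2 ≤ (2 * n) ^ 2 := Nat.pow_le_pow_left h8 2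
    have h10 : s * m = 5 * m + 6 * (m * b) ^ 2 := by rw [hs]; ring
    rw [h10]
    have h11 : (2 * n) ^ 2 = 4 * n ^ 2 := by ring
    have h12 : m ≤ n ^ 2 := hmn.trans (by nlinarith)
    omega

end Pool.Agent.FU2.H70
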